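import Pool.Agent.H88.KN.Targets

/-!
MP_b5bf4a_co, dense range: module RC, the order of two points along a rotating line (helper12).
-/

set_option autoImplicit false

namespace Pool.Agent.H12.KN

open Finset Pool.Agent.H66.GG Pool.Agent.H88.KN

lemma lt_of_rk_lt {V : Type*} [Fintype V] {x y : V → ℝ} {s : ℝ} {v w : V}
    (h : rk x y s v < rk x y s w) : x v + s * y v < x w + s * y w := by
  classical
  by_contra hc
  push Not at hc
  have h1 : rk x y s w ≤ rk x y s v := by
    unfold rk
    apply card_le_card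
    intro z hz
    simp only [mem_filter, mem_univ, true_and] at hz ⊢
    exact lt_of_lt_of_le hz hc
  exact absurd h (not_lt.2 h1)

theorem pf_RC : T_RC := by
  intro V _ _ x y _ v w s1 s2 s3 h12 h23 _ _ _
  rintro ⟨h1, h2, h3⟩
  have a1 := lt_of_rk_lt h1
  have a2 := lt_of_rk_lt h2
  have a3 := lt_of_rk_lt h3
  have b1 : 0 < (s3 - s2) * ((x w + s1 * y w) - (x v + s1 * y v)) :=
    mul_pos (by linarith) (by linarith)
  have b3 : 0 < (s2 - s1) * ((x w + s3 * y w) - (x v + s3 * y v)) :=
    mul_pos (by linarith) (by linarith)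
  have b2 : 0 < (s3 - s1) * ((x v + s2 * y v) - (x w + s2 * y w)) :=
    mul_pos (by linarith) (by linarith)
  have b4 : (s3 - s2) * ((x w + s1 * y w) - (x v + s1 * y v)) +
      (s2 - s1) * ((x w + s3 * y w) - (x v + s3 * y v)) =
      -((s3 - s1) * ((x v + s2 * y v) - (x w + s2 * y w))) := by ring
  linarith

end Pool.Agent.H12.KN
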