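import Pool.Agent.H88.KN.Targets

/-!
MP_b5bf4a_co, dense range: module RS, the rank sequence of a point set (helper12).
-/

set_option autoImplicit false

namespace Pool.Agent.H12.KN

open Finset Pool.Agent.H66.GG Pool.Agent.H88.KN

theorem pf_RS (hSL : T_SL) (hRA : T_RA) (hRB : T_RB) (hRC : T_RC) (hRD : T_RD) : T_RS := by
  classical
  intro V _ _ x y G
  let C : Finset ℝ := (univ : Finset V).offDiag.image fun e => slp x y e.1 e.2
  have hC : ∀ c, c ∈ C ↔ Crit x y c := by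
    intro c
    simp only [C, mem_image, mem_offDiag, mem_univ, true_and, Prod.exists, Crit]
  obtain ⟨s, hs, hsC, hs1, hs2⟩ := hSL C
  have hn : ∀ τ, ¬ Crit x y (s τ) := fun τ h => hsC τ ((hC _).2 h)
  have hstep : ∀ τ < C.card, ∀ v, rk x y (s (τ + 1)) v ≤ rk x y (s τ) v + 1 ∧
      rk x y (s τ) v ≤ rk x y (s (τ + 1)) v + 1 := by
    intro τ hτ v
    obtain ⟨c, -, -, -, hc⟩ := hs1 τ hτ
    exact hRB V x y G (s τ) (s (τ + 1)) c (hs (Nat.lt_succ_self τ)) (hn τ) (hn (τ + 1))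
      (fun c' h1 h2 h3 => hc c' ((hC c').2 h1) h2 h3) v
  refine ⟨C.card, fun τ => rk x y (s τ), ⟨?_, ?_, ?_, ?_, ?_, ?_⟩, ?_⟩
  · intro τ _
    exact (hRA V x y G (s τ) (hn τ)).1
  · intro τ _
    exact (hRA V x y G (s τ) (hn τ)).2.1
  · intro τ hτ v
    exact (hstep τ hτ v).1
  · intro τ hτ v
    exact (hstep τ hτ v).2
  · intro v
    exact hRD V x y G (s 0) (s C.card) (fun c hc => hs2 c ((hC c).2 hc)) v
  · intro v w τ1 τ2 τ3 h12 h23 _
    exact hRC V x y G v w (s τ1) (s τ2) (s τ3) (hs h12) (hs h23) (hn _) (hn _) (hn _)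
  · intro τ _
    exact (hRA V x y G (s τ) (hn τ)).2.2

end Pool.Agent.H12.KN
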